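import Pool.Agent.H92.Arthur.Norm

/-!
# Arthur's conjecture over function fields: two places at a time, and growth of Hecke orbits

`H` is a Hilbert space, `V` a set of places, and `T x i`, `i ∈ I x`, are bounded operators on `H`, one family
for every place `x`, which commute with each other and are closed under adjoints (`HeckeData`). In the
problem `H = L²(Bun_G(𝔽_q))`, `V = |X|`, `I x = Sph(G)_x` and `T x i` are the Hecke operators. For every
place `x` and every `o` in the finite set `O` let `R x o` be a compact set of points `c` of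
`ℂ ^ (I x)` with `c (i*) = conj (c i)`, such that the sets `R x o` are disjoint for different `o`. In the
problem `O` is the set of nilpotent orbits and `R x o` is the set `R_{q_x, 𝕆}`, where a point of
`(Ǧ // Ad Ǧ)(ℂ) = Hom(Sph(G)_x, ℂ)` is regarded as a function on `Sph(G)_x`.

* `ApproxEigen τ K s`: `s` belongs to the joint spectrum of the commuting normal operators `τ j` on the
  invariant closed subspace `K`: there are unit vectors in `K` which are almost joint eigenvectors
  with eigenvalues `s j`. `S.Spec x K`, `S.Spec₂ x y`, `S.SpecAll`: the joint spectrum of the operators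
  at the place `x` on `K`; of those at `x` and `y` on `H`; of all operators on `H`.
* `IsDecomposition S R P K`: `H` is the orthogonal sum of the closed subspaces `K o`, which are invariant
  under the operators at the places in `P`, and for `x ∈ P` the joint spectrum of the operators
  at `x` on `K o` is contained in `R x o`. For `P = V` this is the decomposition in Q1.
* `Types R x y`: the points `(s, s')` with `s ∈ R x o` and `s' ∈ R y o` for the same `o`.
* `Bound C p r`: `|p| ≤ r` on the set `C`, for a polynomial `p` in the operators and a real `r ≥ 0`.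
* `Alg (S.T x)`: the norm-closed algebra generated by the operators at `x`.
-/

open Pool.Agent.H92.Arthur

namespace Pool.Agent.Results.MP_de7261_nt.PairsOfPlaces

/-- `|p| ≤ r` on the set `C` of points -/
def Bound {J : Type} (C : Set (J → ℂ)) (p : FreeAlgebra ℂ J) (r : ℝ) : Prop :=
  0 ≤ r ∧ ∀ c ∈ C, ‖FreeAlgebra.lift ℂ c p‖ ≤ r

/-- for all `f` in `D` the vectors `p(τ) ^ n f` grow at most like `(max |p(C)| + ε) ^ n` -/
def Growth {H : Type} [NormedAddCommGroup H] [InnerProductSpace ℂ H] {J : Type}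
    (τ : J → H →L[ℂ] H) (D : Set H) (C : Set (J → ℂ)) : Prop :=
  ∀ f ∈ D, ∀ (p : FreeAlgebra ℂ J) (r : ℝ), Bound C p r →
    ∀ ε : ℝ, 0 < ε → ∃ k : ℝ, ∀ n : ℕ, ‖(FreeAlgebra.lift ℂ τ p ^ n) f‖ ≤ k * (r + ε) ^ n

section Prep

variable {H : Type} [NormedAddCommGroup H] [InnerProductSpace ℂ H] [CompleteSpace H]
variable {V : Type} {I : V → Type} {O : Type}

/-- the adjoint on the operators at two places -/
def adj₂ (S : HeckeData H V I) (x y : V) : I x ⊕ I y → I x ⊕ I y := Sum.map (S.adj x) (S.adj y)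

theorem tfae_norm {J : Type} (τ : J → H →L[ℂ] H) (adj : J → J)
    (hadj : ∀ j, τ (adj j) = ContinuousLinearMap.adjoint (τ j))
    (hcomm : ∀ i j, τ i * τ j = τ j * τ i) (C : Set (J → ℂ)) (hC : IsCompact C)
    (hherm : ∀ c ∈ C, ∀ j, c (adj j) = star (c j)) (D : Set H)
    (hD : Dense (Submodule.span ℂ D : Set H)) : List.TFAE [
      {s | ApproxEigen τ ⊤ s} ⊆ C,
      ∀ p r, Bound C p r → ‖FreeAlgebra.lift ℂ τ p‖ ≤ r,
      ∀ f ∈ D, ∀ p r, Bound C p r → ‖FreeAlgebra.lift ℂ τ p f‖ ≤ r * ‖f‖,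
      Growth τ D C] := by
  have h := tfae_growth τ adj hadj hcomm C hC hherm D hD
  have e1 : ({s | ApproxEigen τ ⊤ s} ⊆ C) ↔ ∀ s, ApproxEigen τ ⊤ s → s ∈ C := Iff.rfl
  have e2 : (∀ p r, Bound C p r → ‖FreeAlgebra.lift ℂ τ p‖ ≤ r) ↔
      ∀ (p : FreeAlgebra ℂ J) (r : ℝ), 0 ≤ r → (∀ c ∈ C, ‖FreeAlgebra.lift ℂ c p‖ ≤ r) →
        ‖FreeAlgebra.lift ℂ τ p‖ ≤ r :=
    ⟨fun h p r h1 h2 => h p r ⟨h1, h2⟩, fun h p r h1 => h p r h1.1 h1.2⟩
  have e3 : (∀ f ∈ D, ∀ p r, Bound C p r → ‖FreeAlgebra.lift ℂ τ p f‖ ≤ r * ‖f‖) ↔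
      ∀ f ∈ D, ∀ (p : FreeAlgebra ℂ J) (r : ℝ), 0 ≤ r →
        (∀ c ∈ C, ‖FreeAlgebra.lift ℂ c p‖ ≤ r) → ‖FreeAlgebra.lift ℂ τ p f‖ ≤ r * ‖f‖ :=
    ⟨fun h f hf p r h1 h2 => h f hf p r ⟨h1, h2⟩, fun h f hf p r h1 => h f hf p r h1.1 h1.2⟩
  have e4 : Growth τ D C ↔ ∀ f ∈ D, ∀ (p : FreeAlgebra ℂ J) (r : ℝ), 0 ≤ r →
        (∀ c ∈ C, ‖FreeAlgebra.lift ℂ c p‖ ≤ r) → ∀ ε : ℝ, 0 < ε → ∃ k : ℝ, ∀ n : ℕ,
          ‖(FreeAlgebra.lift ℂ τ p ^ n) f‖ ≤ k * (r + ε) ^ n :=
    ⟨fun h f hf p r h1 h2 => h f hf p r ⟨h1, h2⟩, fun h f hf p r h1 => h f hf p r h1.1 h1.2⟩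
  rw [e1, e2, e3, e4]
  exact h

theorem isCompact_types [Finite O] (R : (x : V) → O → Set (I x → ℂ))
    (hR : ∀ x o, IsCompact (R x o)) (x y : V) : IsCompact (Types R x y) := by
  have : Types R x y = ⋃ o, (fun q : (I x → ℂ) × (I y → ℂ) => Sum.elim q.1 q.2) ''
      (R x o ×ˢ R y o) := by
    ext s
    simp only [Types, Set.mem_ofPred_eq, Set.mem_iUnion, Set.mem_image, Set.mem_prod, Prod.exists]
    constructor
    · rintro ⟨o, h1, h2⟩
      exact ⟨o, _, _, ⟨h1, h2⟩, by funext j; rcases j with i | i <;> rfl⟩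
    · rintro ⟨o, a, b, ⟨h1, h2⟩, rfl⟩
      exact ⟨o, h1, h2⟩
  rw [this]
  refine isCompact_iUnion fun o => ((hR x o).prod (hR y o)).image ?_
  refine continuous_pi fun j => ?_
  rcases j with i | i
  · exact (continuous_apply i).comp continuous_fst
  · exact (continuous_apply i).comp continuous_snd

theorem tfae_two (S : HeckeData H V I) [Finite O] (R : (x : V) → O → Set (I x → ℂ))
    (hR : ∀ x o, IsCompact (R x o))
    (hherm : ∀ x o, ∀ c ∈ R x o, ∀ i, c (S.adj x i) = star (c i))
    (D : Set H) (hD : Dense (Submodule.span ℂ D : Set H)) (x y : V) : List.TFAE [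
      S.Spec₂ x y ⊆ Types R x y,
      ∀ p r, Bound (Types R x y) p r →
        ‖FreeAlgebra.lift ℂ (Sum.elim (S.T x) (S.T y)) p‖ ≤ r,
      ∀ f ∈ D, ∀ p r, Bound (Types R x y) p r →
        ‖FreeAlgebra.lift ℂ (Sum.elim (S.T x) (S.T y)) p f‖ ≤ r * ‖f‖,
      Growth (Sum.elim (S.T x) (S.T y)) D (Types R x y)] := by
  refine tfae_norm (Sum.elim (S.T x) (S.T y)) (adj₂ S x y) ?_ ?_ _ (isCompact_types R hR x y) ?_
    D hD
  · rintro (i | i)
    · exact S.T_adj x i
    · exact S.T_adj y i
  · rintro (i | i) (j | j) <;> exact S.comm _ _ _ _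
  · rintro c ⟨o, h1, h2⟩ (i | i)
    · exact hherm x o _ h1 i
    · exact hherm y o _ h2 i

theorem tfae_one (S : HeckeData H V I) [Finite O] (R : (x : V) → O → Set (I x → ℂ))
    (hR : ∀ x o, IsCompact (R x o)) (hd : ∀ x o o', o ≠ o' → Disjoint (R x o) (R x o'))
    (hherm : ∀ x o, ∀ c ∈ R x o, ∀ i, c (S.adj x i) = star (c i))
    (D : Set H) (hD : Dense (Submodule.span ℂ D : Set H)) (x : V) : List.TFAE [
      ∃ K, IsDecomposition S R {x} K,
      S.Spec x ⊤ ⊆ ⋃ o, R x o,
      Growth (S.T x) D (⋃ o, R x o)] := by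
  classical
  have := Fintype.ofFinite O
  have h := tfae_norm (S.T x) (S.adj x) (S.T_adj x) (fun i j => S.comm x i x j) (⋃ o, R x o)
    (isCompact_iUnion fun o => hR x o) (by
      intro c hc i
      obtain ⟨o, ho⟩ := Set.mem_iUnion.mp hc
      exact hherm x o c ho i) D hD
  obtain ⟨A, inst, π, t, hu, ht, -, -⟩ := exists_rep S.good
  tfae_have 1 → 2 := by
    rintro ⟨K, hK⟩ s hs
    obtain ⟨χ, hχ⟩ := lift_character π (fun i => t ⟨x, i⟩) (fun i => ht _) hs
    obtain ⟨o, ho⟩ := characters_of_decomposition π hu S R {x} hK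
      (fun z i => t ⟨z, i⟩) (fun z i => ht _) χ
    refine Set.mem_iUnion.mpr ⟨o, ?_⟩
    rw [← hχ]
    exact ho ⟨x, rfl⟩
  tfae_have 2 → 1 := by
    intro hs
    obtain ⟨e, -, -, -, -, h5⟩ := decomposition_of_characters π S R {x}
      (fun x o => (hR x o).isClosed) hd ⟨x, rfl⟩
      (fun z i => t ⟨z, i⟩) (fun z i => ht _) (fun χ => by
        obtain ⟨o, ho⟩ := Set.mem_iUnion.mp
          (hs (approx_character π hu (τ := S.T x) (fun i => t ⟨x, i⟩) (fun i => ht _) χ))
        refine ⟨o, ?_⟩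
        rintro ⟨z, hz⟩
        obtain rfl : z = x := hz
        exact ho)
    exact ⟨_, h5⟩
  tfae_have 2 ↔ 3 := h.out 0 3
  tfae_finish

end Prep

/-- **Arthur decompositions, two places at a time.** Let the places be the vertices of a connected
graph (for instance, join a fixed place to all the other ones), and let the span of `D` be dense
(in the problem: the characteristic functions of the points of `Bun_G(𝔽_q)`).

(A) The following are equivalent.
1. There is an Arthur decomposition (Q1).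
2. For any two neighbours `x`, `y` there is an Arthur decomposition for the operators at `x` and `y`.
3. If `(s, s')` is in the joint spectrum of the operators at the neighbours `x`, `y`, then `s` and `s'` are
   in the sets `R x o` and `R y o` for the same `o`.
4. For every point `s` of the joint spectrum of all operators there is an `o` with `s x ∈ R x o` for all `x`.
5. `‖p(T)‖ ≤ max |p|` for all polynomials `p` in the operators at two neighbours, where the maximum is over
   the union of the sets `R x o × R y o`.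
6. `‖p(T) f‖ ≤ (max |p|) ‖f‖` for these `p` and for `f` in `D`.
7. For these `p` and for `f` in `D` the norms of `p(T) ^ n f` grow at most like `(max |p| + ε) ^ n`.

(B) Let `K` be an Arthur decomposition for a set `P` of places and let `x ∈ P`. Then the orthogonal
projections onto the `K o` are norm limits of polynomials in the operators at the place `x`, and `K` is the
only Arthur decomposition for the place `x`.

(C) Suppose that there are functions `w x` such that `w x s = w y s'` for all `(s, s')` in the joint spectrum of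
the operators at neighbours `x`, `y`, and `w x = η o` on `R x o`, where `η` is injective (for the Hecke
operators: the exponents of the absolute values of the Satake parameters; V. Lafforgue, L. Lafforgue).
Then there is an Arthur decomposition if and only if there is one for every place `x`, if and only if for
every `x` the joint spectrum of the operators at `x` is contained in the union of the `R x o`, if and only if for
every `x`, every polynomial `p` in the operators at `x` and every `f` in `D` the norms of `p(T) ^ n f` grow at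
most like `(max |p| + ε) ^ n`, the maximum over the union of the `R x o`. -/
theorem result {H : Type} [NormedAddCommGroup H] [InnerProductSpace ℂ H] [CompleteSpace H]
    {V : Type} [Nontrivial V] {I : V → Type} {O : Type} [Finite O] (S : HeckeData H V I)
    (R : (x : V) → O → Set (I x → ℂ)) (hR : ∀ x o, IsCompact (R x o))
    (hherm : ∀ x o, ∀ c ∈ R x o, ∀ i, c (S.adj x i) = star (c i))
    (hd : ∀ x o o', o ≠ o' → Disjoint (R x o) (R x o'))
    (G : SimpleGraph V) (hG : G.Connected)
    (D : Set H) (hD : Dense (Submodule.span ℂ D : Set H)) :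
    List.TFAE [
      ∃ K, IsDecomposition S R Set.univ K,
      ∀ x y, G.Adj x y → ∃ K, IsDecomposition S R {x, y} K,
      ∀ x y, G.Adj x y → S.Spec₂ x y ⊆ Types R x y,
      ∀ s ∈ S.SpecAll, ∃ o, ∀ x, s x ∈ R x o,
      ∀ x y, G.Adj x y → ∀ p r, Bound (Types R x y) p r →
        ‖FreeAlgebra.lift ℂ (Sum.elim (S.T x) (S.T y)) p‖ ≤ r,
      ∀ x y, G.Adj x y → ∀ f ∈ D, ∀ p r, Bound (Types R x y) p r →
        ‖FreeAlgebra.lift ℂ (Sum.elim (S.T x) (S.T y)) p f‖ ≤ r * ‖f‖,
      ∀ x y, G.Adj x y → Growth (Sum.elim (S.T x) (S.T y)) D (Types R x y)] ∧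
    (∀ (P : Set V) (K : O → Submodule ℂ H), IsDecomposition S R P K → ∀ x ∈ P,
      (∀ o, ∃ p ∈ Alg (S.T x), p * p = p ∧ ContinuousLinearMap.adjoint p = p ∧
        ∀ f, f ∈ K o ↔ p f = f) ∧
      ∀ K' : O → Submodule ℂ H, IsDecomposition S R {x} K' → K' = K) ∧
    ∀ (Λ : Type) (w : (x : V) → (I x → ℂ) → Λ) (η : O → Λ), Function.Injective η →
      (∀ x o, ∀ s ∈ R x o, w x s = η o) →
      (∀ x y, G.Adj x y → ∀ s ∈ S.Spec₂ x y,
        w x (fun i => s (Sum.inl i)) = w y fun i => s (Sum.inr i)) →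
      List.TFAE [
        ∃ K, IsDecomposition S R Set.univ K,
        ∀ x, ∃ K, IsDecomposition S R {x} K,
        ∀ x, S.Spec x ⊤ ⊆ ⋃ o, R x o,
        ∀ x, Growth (S.T x) D (⋃ o, R x o)] := by
  have hcl : ∀ x o, IsClosed (R x o) := fun x o => (hR x o).isClosed
  have h1 := tfae_pairs S R hcl hd G hG
  have h2 : ∀ x y, _ := fun x y => tfae_two S R hR hherm D hD x y
  refine ⟨?_, ?_, ?_⟩
  · tfae_have 1 ↔ 2 := h1.out 0 1
    tfae_have 1 ↔ 3 := h1.out 0 2
    tfae_have 1 ↔ 4 := h1.out 0 3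
    tfae_have 3 ↔ 5 :=
      ⟨fun h x y hxy => ((h2 x y).out 0 1).mp (h x y hxy),
        fun h x y hxy => ((h2 x y).out 0 1).mpr (h x y hxy)⟩
    tfae_have 3 ↔ 6 :=
      ⟨fun h x y hxy => ((h2 x y).out 0 2).mp (h x y hxy),
        fun h x y hxy => ((h2 x y).out 0 2).mpr (h x y hxy)⟩
    tfae_have 3 ↔ 7 :=
      ⟨fun h x y hxy => ((h2 x y).out 0 3).mp (h x y hxy),
        fun h x y hxy => ((h2 x y).out 0 3).mpr (h x y hxy)⟩
    tfae_finish
  · intro P K hK x hx
    exact ⟨fun o => projections_of_decomposition S R hcl hd hK hx o,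
      fun K' hK' => unique S R hcl hd hK' hK rfl hx⟩
  · intro Λ w η hη hw hp
    have h3 : ∀ x, _ := fun x => tfae_one S R hR hd hherm D hD x
    tfae_have 1 → 2 := fun ⟨K, hK⟩ x => ⟨K, hK.mono (Set.subset_univ _)⟩
    tfae_have 2 ↔ 3 :=
      ⟨fun h x => ((h3 x).out 0 1).mp (h x), fun h x => ((h3 x).out 0 1).mpr (h x)⟩
    tfae_have 3 ↔ 4 :=
      ⟨fun h x => ((h3 x).out 1 2).mp (h x), fun h x => ((h3 x).out 1 2).mpr (h x)⟩
    tfae_have 3 → 1 := by
      intro h
      refine (h1.out 0 2).mpr fun x y hxy s hs => ?_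
      have hsx : (fun i => s (Sum.inl i)) ∈ S.Spec x ⊤ := by
        intro F ε hε
        obtain ⟨f, hf, hf1, hf2⟩ := hs (F.map Function.Embedding.inl) ε hε
        exact ⟨f, hf, hf1, fun i hi => hf2 (Sum.inl i) (Finset.mem_map.mpr ⟨i, hi, rfl⟩)⟩
      have hsy : (fun i => s (Sum.inr i)) ∈ S.Spec y ⊤ := by
        intro F ε hε
        obtain ⟨f, hf, hf1, hf2⟩ := hs (F.map Function.Embedding.inr) ε hε
        exact ⟨f, hf, hf1, fun i hi => hf2 (Sum.inr i) (Finset.mem_map.mpr ⟨i, hi, rfl⟩)⟩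
      obtain ⟨o, ho⟩ := Set.mem_iUnion.mp (h x hsx)
      obtain ⟨o', ho'⟩ := Set.mem_iUnion.mp (h y hsy)
      have hoo : o = o' := hη (by rw [← hw x o _ ho, ← hw y o' _ ho', hp x y hxy s hs])
      exact ⟨o, ho, hoo ▸ ho'⟩
    tfae_finish

end Pool.Agent.Results.MP_de7261_nt.PairsOfPlaces
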